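import Mathlib

namespace Pool.Agent.Results.MP_ad0c0d_al.Dual

open DualNumber TrivSqZeroExt

/-- number of circulant matrices of size `n + 1` with determinant `a` -/
noncomputable def cnt (R : Type) [CommRing R] (n : ℕ) (a : R) : ℕ :=
  Nat.card {v : Fin (n + 1) → R // (Matrix.of fun i j : Fin (n + 1) => v (j - i)).det = a}

abbrev R := DualNumber (ZMod 2)

lemma det_eq (v : Fin 2 → R) :
    (Matrix.of fun i j : Fin 2 => v (j - i)).det = v 0 * v 0 - v 1 * v 1 := by
  rw [Matrix.det_fin_two]
  rfl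

lemma cases4 (x : R) : x = 0 ∨ x = ε ∨ IsUnit x := by
  by_cases h : x.fst = 0
  · have h2 : ∀ y : ZMod 2, y = 0 ∨ y = 1 := by decide
    rcases h2 x.snd with h' | h'
    · left; ext <;> simp [h, h']
    · right; left; ext <;> simp [h, h']
  · right; right
    rw [TrivSqZeroExt.isUnit_iff_isUnit_fst]
    exact isUnit_iff_ne_zero.2 h

lemma ideals (I : Ideal R) : I = ⊥ ∨ I = Ideal.span {ε} ∨ I = ⊤ := by
  by_cases h : I = ⊤
  · exact Or.inr (Or.inr h)
  by_cases h' : ε ∈ I
  · right; left
    apply le_antisymm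
    · intro x hx
      rcases cases4 x with rfl | rfl | hu
      · exact zero_mem _
      · exact Ideal.subset_span rfl
      · exact absurd (I.eq_top_of_isUnit_mem hx hu) h
    · rwa [Ideal.span_singleton_le_iff_mem]
  · left
    rw [eq_bot_iff]
    intro x hx
    rcases cases4 x with rfl | rfl | hu
    · exact zero_mem _
    · exact absurd hx h'
    · exact absurd (I.eq_top_of_isUnit_mem hx hu) h

theorem result : ∃ (R : Type) (_ : CommRing R) (_ : Finite R) (_ : Nontrivial R),
    (∀ I J : Ideal R, I ≤ J ∨ J ≤ I) ∧ ∃ (γ : R), (Ideal.span {γ}).IsMaximal ∧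
      ∃ (n : ℕ) (b : Rˣ), cnt R n (γ ^ 0) ≠ cnt R n (b * γ ^ 0) := by
  have hfin : Finite R := inferInstanceAs (Finite (ZMod 2 × ZMod 2))
  have hu : IsUnit (1 + ε : R) := by
    rw [TrivSqZeroExt.isUnit_iff_isUnit_fst]; simp
  refine ⟨R, inferInstance, hfin, inferInstance, ?_, ε, ?_, 1, hu.unit, ?_⟩
  · intro I J
    rcases ideals I with rfl | rfl | rfl <;> rcases ideals J with rfl | rfl | rfl <;> simp
  · refine ⟨⟨?_, ?_⟩⟩
    · rw [ne_eq, Ideal.span_singleton_eq_top, TrivSqZeroExt.isUnit_iff_isUnit_fst]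
      simp
    · intro J hJ
      rcases ideals J with rfl | rfl | rfl
      · exact absurd hJ not_lt_bot
      · exact absurd hJ (lt_irrefl _)
      · rfl
  · have h1 : cnt R 1 ((hu.unit : R) * (ε : R) ^ 0) = 0 := by
      rw [cnt, Nat.card_eq_zero]
      left
      constructor
      rintro ⟨v, hv⟩
      have := congrArg TrivSqZeroExt.snd ((det_eq v).symm.trans hv)
      simp only [snd_sub, DualNumber.snd_mul, IsUnit.unit_spec, pow_zero, mul_one, snd_add, snd_one,
        snd_eps, zero_add] at this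
      revert this
      generalize (v 0).fst = a, (v 0).snd = b, (v 1).fst = c, (v 1).snd = d
      revert a b c d
      decide
    rw [h1]
    apply Nat.card_ne_zero.2
    refine ⟨⟨⟨![1, 0], ?_⟩⟩, inferInstance⟩
    rw [det_eq]
    simp

end Pool.Agent.Results.MP_ad0c0d_al.Dual
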